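import Mathlib
import Pool.Agent.Work.MP_789b02_lc.Final

/-!
A third necessary condition for the ranked lattices `Lt*(N/M)`.
-/

open FirstOrder FirstOrder.Language PALat

universe u v w

namespace Pool.Agent.Results.MP_789b02_lc.ThirdCondition

/-- If `M ≼ N` are models of Peano arithmetic and `Lt*(N/M)` is isomorphic to `(L, C)` then
`(L, C)` satisfies the condition (C): if `w̄` is the least element of `C` above `w`,
`c ⊓ w̄ = w` and `w ≤ a ≤ w̄`, then `(a ⊔ c) ⊓ w̄ = a`. -/
theorem result {M : Type u} {N : Type v} [LPA.Structure M] [LPA.Structure N] (hM : M ⊨ PA)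
    (f : M ↪ₑ[LPA] N) {L : Type w} [Lattice L] (C : Set L) (h : LtStarIso C f) :
    ∀ w a c wb : L, IsBar C w wb → c ⊓ wb = w → w ≤ a → a ≤ wb → (a ⊔ c) ⊓ wb = a :=
  condC_of_iso hM f C h

end Pool.Agent.Results.MP_789b02_lc.ThirdCondition
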