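import Mathlib
import Pool.Agent.Work.MP_789b02_lc.Final
import Pool.Agent.Work.MP_789b02_lc.NatModel

/-!
Conditions (A) and (B) do not characterise the finite ranked lattices `Lt*(N/M)`.
-/

open FirstOrder FirstOrder.Language PALat

universe u v

namespace Pool.Agent.Results.MP_789b02_lc.TwoConditionsFail

/-- There is a finite ranked lattice `(L, C)` (with seven elements) with `0 ∈ C` that satisfies
(A) and (B), no interval of which is a pentagon, such that no elementary extension `N` of any
model `M` of Peano arithmetic has `Lt*(N/M)` isomorphic to `(L, C)`; and there is a model of Peano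
arithmetic. -/
theorem result :
    ∃ (L : Type) (_ : Lattice L) (_ : BoundedOrder L) (_ : Finite L) (C : Set L),
      IsRanked C ∧ (⊥ : L) ∈ C ∧ CondA C ∧ CondB C ∧ NoPentagon L ∧
      (∃ (M : Type) (_ : LPA.Structure M), M ⊨ PA) ∧
      ∀ (M : Type u) (N : Type v) [LPA.Structure M] [LPA.Structure N], M ⊨ PA →
        ∀ f : M ↪ₑ[LPA] N, ¬ LtStarIso C f := by
  refine ⟨Hx, inferInstance, inferInstance, inferInstance, Hx.C, Hx.isRanked, Or.inl rfl,
    Hx.condA, Hx.condB, Hx.noPentagon, ⟨ℕ, natStr, nat_model⟩, ?_⟩
  intro M N _ _ hM f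
  exact not_iso hM f

end Pool.Agent.Results.MP_789b02_lc.TwoConditionsFail
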